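import Pool.Agent.H32.RQ.Targets

/-!
# Lattice points in a parallelogram (row CNT)
-/

set_option autoImplicit false

open Finset Pool.Agent.H32.RQ

namespace Pool.Agent.H98.RQ

/-- an integer strictly between `u - J` and `u + J`, shifted by less than `J`, lies in a fixed
interval of `3 J` integers -/
theorem box {e J i : ℕ} {E : ℤ} {u : ℝ} (h : |(E : ℝ) - u| < J) (hi : i < e) (he : e ≤ J) :
    E + i ∈ Finset.Icc (⌊u⌋ - J + 1) (⌊u⌋ + 2 * J) := by
  obtain ⟨h1, h2⟩ := abs_lt.1 h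
  rw [Finset.mem_Icc]
  have h3 := Int.floor_le u
  have h4 := Int.lt_floor_add_one u
  have h5 : ((⌊u⌋ - J : ℤ) : ℝ) < (E : ℝ) := by
    push_cast
    linarith
  have h6 : (E : ℝ) < ((⌊u⌋ + 1 + J : ℤ) : ℝ) := by
    push_cast
    linarith
  have h7 : ⌊u⌋ - J < E := by exact_mod_cast h5
  have h8 : E < ⌊u⌋ + 1 + J := by exact_mod_cast h6
  constructor <;> omega

/-- two pairs in the same class are equal -/
theorem inj {a b a' b' x y i i' j j' : ℤ} {g h : ℕ} (hD : a * b' - a' * b ≠ 0)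
    (hg : g = Int.gcd a b) (hgh : (a * b' - a' * b).natAbs = g * h)
    (hi : 0 ≤ i ∧ i < g) (hi' : 0 ≤ i' ∧ i' < g) (hj : 0 ≤ j ∧ j < h) (hj' : 0 ≤ j' ∧ j' < h)
    (e1 : x * a + y * b = i' - i) (e2 : x * a' + y * b' = j' - j) :
    i = i' ∧ j = j' ∧ x = 0 ∧ y = 0 := by
  have ha : (g : ℤ) ∣ a := by rw [hg]; exact Int.gcd_dvd_left ..
  have hb : (g : ℤ) ∣ b := by rw [hg]; exact Int.gcd_dvd_right ..
  have h1 : (g : ℤ) ∣ i' - i := by
    rw [← e1]
    exact dvd_add (ha.mul_left _) (hb.mul_left _)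
  have h2 : i' - i = 0 := Int.eq_zero_of_abs_lt_dvd h1 (by rw [abs_lt]; constructor <;> linarith [hi.1, hi.2, hi'.1, hi'.2])
  have h3 : (a * b' - a' * b) * x = -(b * (j' - j)) := by
    rw [← e2]
    have : x * a + y * b = 0 := by rw [e1, h2]
    linear_combination b' * this
  have h4 : (a * b' - a' * b) * y = a * (j' - j) := by
    rw [← e2]
    have : x * a + y * b = 0 := by rw [e1, h2]
    linear_combination (-a') * this
  have h5 : (a * b' - a' * b) ∣ b * (j' - j) := (dvd_neg.1 ⟨x, h3.symm⟩)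
  have h6 : (a * b' - a' * b) ∣ a * (j' - j) := ⟨y, h4.symm⟩
  have h7 : (a * b' - a' * b) ∣ (g : ℤ) * (j' - j) := by
    rw [hg, Int.gcd_eq_gcd_ab, add_mul]
    refine dvd_add ?_ ?_
    · rw [mul_right_comm]
      exact h6.mul_right _
    · rw [mul_right_comm]
      exact h5.mul_right _
  have hg0 : (g : ℤ) ≠ 0 := by
    intro h0
    apply hD
    have : (a * b' - a' * b).natAbs = 0 := by
      rw [hgh]
      have : g = 0 := by exact_mod_cast h0
      rw [this, Nat.zero_mul]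
    exact Int.natAbs_eq_zero.1 this
  have h8 : (h : ℤ) ∣ j' - j := by
    have h9 : ((g * h : ℕ) : ℤ) ∣ (g : ℤ) * (j' - j) := by
      rw [← hgh, Int.natAbs_dvd]
      exact h7
    push_cast at h9
    exact Int.dvd_of_mul_dvd_mul_left hg0 h9
  have h10 : j' - j = 0 := Int.eq_zero_of_abs_lt_dvd h8 (by rw [abs_lt]; constructor <;> linarith [hj.1, hj.2, hj'.1, hj'.2])
  rw [h10, mul_zero, neg_zero] at h3
  rw [h10, mul_zero] at h4
  refine ⟨by linarith, by linarith, (mul_eq_zero.1 h3).resolve_left hD,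
    (mul_eq_zero.1 h4).resolve_left hD⟩

theorem pf_CNT : T_CNT := by
  intro a b a' b' Δ J u v hΔ h1 hJ
  have hD : a * b' - a' * b ≠ 0 := by
    intro h
    rw [h] at hΔ
    simp at hΔ
    omega
  obtain ⟨g, hg⟩ : ∃ g : ℕ, g = Int.gcd a b := ⟨_, rfl⟩
  have hgΔ : g ∣ Δ := by
    rw [hΔ, ← Int.natCast_dvd, hg]
    exact dvd_sub ((Int.gcd_dvd_left ..).mul_right _) ((Int.gcd_dvd_right ..).mul_left _)
  obtain ⟨h, hh⟩ := hgΔ
  have hgh : (a * b' - a' * b).natAbs = g * h := by rw [← hΔ, hh]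
  have hgpos : 0 < g := Nat.pos_of_ne_zero fun h0 => by rw [h0, Nat.zero_mul] at hh; omega
  have hhpos : 0 < h := Nat.pos_of_ne_zero fun h0 => by rw [h0, Nat.mul_zero] at hh; omega
  have hgJ : g ≤ J := (Nat.le_of_dvd (by omega) ⟨h, hh⟩).trans hJ
  have hhJ : h ≤ J := (Nat.le_of_dvd (by omega) ⟨g, by rw [hh, Nat.mul_comm]⟩).trans hJ
  obtain ⟨S, hS⟩ : ∃ S : Set (ℤ × ℤ), S = {q : ℤ × ℤ | |(q.1 * a + q.2 * b : ℝ) - u| < J ∧
      |(q.1 * a' + q.2 * b' : ℝ) - v| < J} := ⟨_, rfl⟩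
  rw [← hS]
  obtain ⟨B, hB⟩ : ∃ B : Finset (ℤ × ℤ), B = Finset.Icc (⌊u⌋ - J + 1) (⌊u⌋ + 2 * J) ×ˢ
      Finset.Icc (⌊v⌋ - J + 1) (⌊v⌋ + 2 * J) := ⟨_, rfl⟩
  have hmem : ∀ q ∈ S, ∀ i < g, ∀ j < h,
      (q.1 * a + q.2 * b + (i : ℤ), q.1 * a' + q.2 * b' + (j : ℤ)) ∈ B := by
    intro q hq i hi j hj
    rw [hS] at hq
    obtain ⟨h2, h3⟩ := hq
    rw [hB, Finset.mem_product]
    refine ⟨box (E := q.1 * a + q.2 * b) ?_ hi hgJ, box (E := q.1 * a' + q.2 * b') ?_ hj hhJ⟩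
    · push_cast
      exact h2
    · push_cast
      exact h3
  have hinj : ∀ q q' : ℤ × ℤ, ∀ i < g, ∀ i' < g, ∀ j < h, ∀ j' < h,
      (q.1 * a + q.2 * b + (i : ℤ), q.1 * a' + q.2 * b' + (j : ℤ)) =
      (q'.1 * a + q'.2 * b + (i' : ℤ), q'.1 * a' + q'.2 * b' + (j' : ℤ)) →
      q = q' ∧ i = i' ∧ j = j' := by
    intro q q' i hi i' hi' j hj j' hj' he
    rw [Prod.mk.injEq] at he
    obtain ⟨h2, h3, h4, h5⟩ := inj (x := q.1 - q'.1) (y := q.2 - q'.2) (i := (i : ℤ))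
      (i' := (i' : ℤ)) (j := (j : ℤ)) (j' := (j' : ℤ)) hD hg hgh
      ⟨by positivity, by exact_mod_cast hi⟩ ⟨by positivity, by exact_mod_cast hi'⟩
      ⟨by positivity, by exact_mod_cast hj⟩ ⟨by positivity, by exact_mod_cast hj'⟩
      (by linear_combination he.1) (by linear_combination he.2)
    refine ⟨Prod.ext (by linarith) (by linarith), by exact_mod_cast h2, by exact_mod_cast h3⟩
  have hfin : S.Finite := by
    refine Set.Finite.of_injOn (f := fun q : ℤ × ℤ => (q.1 * a + q.2 * b + ((0 : ℕ) : ℤ),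
      q.1 * a' + q.2 * b' + ((0 : ℕ) : ℤ))) (t := (B : Set (ℤ × ℤ))) ?_ ?_ B.finite_toSet
    · intro q hq
      exact hmem q hq 0 hgpos 0 hhpos
    · intro q _ q' _ he
      exact (hinj q q' 0 hgpos 0 hgpos 0 hhpos 0 hhpos he).1
  refine ⟨hfin, ?_⟩
  have hcard : (hfin.toFinset ×ˢ (Finset.range g ×ˢ Finset.range h)).card ≤ B.card := by
    refine Finset.card_le_card_of_injOn (fun p => (p.1.1 * a + p.1.2 * b + (p.2.1 : ℤ),
      p.1.1 * a' + p.1.2 * b' + (p.2.2 : ℤ))) ?_ ?_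
    · intro p hp
      rw [Finset.mem_coe, Finset.mem_product, Finset.mem_product, hfin.mem_toFinset,
        Finset.mem_range, Finset.mem_range] at hp
      exact hmem p.1 hp.1 p.2.1 hp.2.1 p.2.2 hp.2.2
    · intro p hp p' hp' he
      rw [Finset.mem_coe, Finset.mem_product, Finset.mem_product, hfin.mem_toFinset,
        Finset.mem_range, Finset.mem_range] at hp hp'
      obtain ⟨h2, h3, h4⟩ := hinj p.1 p'.1 p.2.1 hp.2.1 p'.2.1 hp'.2.1 p.2.2 hp.2.2 p'.2.2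
        hp'.2.2 he
      exact Prod.ext h2 (Prod.ext h3 h4)
  rw [Finset.card_product, Finset.card_product, Finset.card_range, Finset.card_range, ← hh, hB,
    Finset.card_product, Int.card_Icc, Int.card_Icc] at hcard
  have h2 : (⌊u⌋ + 2 * (J : ℤ) + 1 - (⌊u⌋ - J + 1)).toNat = 3 * J := by
    have : ⌊u⌋ + 2 * (J : ℤ) + 1 - (⌊u⌋ - J + 1) = ((3 * J : ℕ) : ℤ) := by push_cast; ring
    rw [this, Int.toNat_natCast]
  have h3 : (⌊v⌋ + 2 * (J : ℤ) + 1 - (⌊v⌋ - J + 1)).toNat = 3 * J := by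
    have : ⌊v⌋ + 2 * (J : ℤ) + 1 - (⌊v⌋ - J + 1) = ((3 * J : ℕ) : ℤ) := by push_cast; ring
    rw [this, Int.toNat_natCast]
  rw [h2, h3, ← Set.ncard_eq_toFinset_card S hfin] at hcard
  have h4 : ((S.ncard * Δ : ℕ) : ℝ) ≤ ((3 * J * (3 * J) : ℕ) : ℝ) := by exact_mod_cast hcard
  push_cast at h4
  linarith [h4]

end Pool.Agent.H98.RQ
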